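import Mathlib

/-! Finite groups with irreducible generating sets and Cayley graphs of large chromatic number: copy of
the file `Pool.Agent.Results.MP_696765_co.IrreducibleUnbounded` of the starting commit (namespace
changed, last theorem left out). -/

namespace Pool.Agent.Y799.IG

/-- The Cayley graph of `G` with respect to `H`: the vertex set is `G` and the edges are the
unordered pairs `{g, h * g}` with `g ∈ G` and `h ∈ H` (loops are left out). -/
def CayleyGraph {G : Type*} [Group G] (H : Set G) : SimpleGraph G where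
  Adj g g' := g ≠ g' ∧ ∃ h ∈ H, g' = h * g ∨ g = h * g'
  symm := ⟨fun _ _ ⟨hne, h, hH, hor⟩ => ⟨hne.symm, h, hH, hor.symm⟩⟩
  loopless := ⟨fun _ h => h.1 rfl⟩

/-- `H` is an irreducible generating set: it generates the group and, for every `h ∈ H`,
the set `H` without `h` does not. -/
def IsIrreducibleGeneratingSet {G : Type*} [Group G] (H : Set G) : Prop :=
  Subgroup.closure H = ⊤ ∧ ∀ h ∈ H, Subgroup.closure (H \ {h}) ≠ ⊤

theorem one_notMem_of_irreducible {G : Type*} [Group G] {H : Set G}
    (hH : IsIrreducibleGeneratingSet H) : (1 : G) ∉ H := by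
  intro h1
  apply hH.2 1 h1
  rw [eq_top_iff, ← hH.1, Subgroup.closure_le]
  intro x hx
  by_cases hx1 : x = 1
  · rw [hx1]; exact Subgroup.one_mem _
  · exact Subgroup.subset_closure ⟨hx, hx1⟩

section Step

variable {G : Type} [Group G] {ι : Type} [DecidableEq ι]

/-- The points on which the new group acts. -/
abbrev Pt (G ι : Type) := G × (ι → G)

/-- Left multiplication on the zeroth coordinate. -/
def lam : G →* Equiv.Perm (Pt G ι) where
  toFun x := (Equiv.mulLeft x).prodCongr (Equiv.refl _)
  map_one' := by ext p <;> simp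
  map_mul' x y := by ext p <;> simp [mul_assoc]

/-- Left multiplication on the other coordinates. -/
def dia : (ι → G) →* Equiv.Perm (Pt G ι) where
  toFun u := (Equiv.refl _).prodCongr (Equiv.mulLeft u)
  map_one' := by ext p <;> simp
  map_mul' x y := by ext p <;> simp [mul_assoc]

/-- The twisting permutation attached to `j` and `A`. -/
def tau (j : ι) (A : Finset ι) : Equiv.Perm (Pt G ι) where
  toFun p := (p.2 j, fun i => if i = j then p.1 else if i ∈ A then p.1 * p.2 i else p.2 i)
  invFun q := (q.2 j, fun i => if i = j then q.1 else if i ∈ A then (q.2 j)⁻¹ * q.2 i else q.2 i)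
  left_inv p := by
    ext i
    · simp
    · by_cases h : i = j
      · subst h; simp
      · by_cases h' : i ∈ A <;> simp [h, h']
  right_inv p := by
    ext i
    · simp
    · by_cases h : i = j
      · subst h; simp
      · by_cases h' : i ∈ A <;> simp [h, h']

theorem lam_apply (x : G) (p : Pt G ι) : lam x p = (x * p.1, p.2) := rfl
theorem dia_apply (u : ι → G) (p : Pt G ι) : dia u p = (p.1, u * p.2) := rfl
theorem tau_apply (j : ι) (A : Finset ι) (p : Pt G ι) :
    tau j A p = (p.2 j, fun i => if i = j then p.1 else if i ∈ A then p.1 * p.2 i else p.2 i) := rfl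

theorem tau_lam (j : ι) (A : Finset ι) (x : G) :
    tau j A * lam x = dia (fun i => if i = j ∨ i ∈ A then x else 1) * tau j A := by
  ext p i
  · simp [Equiv.Perm.mul_apply, lam_apply, dia_apply, tau_apply]
  · simp only [Equiv.Perm.mul_apply, lam_apply, dia_apply, tau_apply, Pi.mul_apply]
    by_cases h : i = j
    · simp [h]
    · by_cases h' : i ∈ A <;> simp [h, h', mul_assoc]

/-- The index set of the new generators. -/
abbrev Idx (ι : Type) := ι × Finset ι

/-- The ambient group. -/
abbrev Amb (G ι : Type) := Equiv.Perm (Pt G ι) × (Idx ι → ℤˣ)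

/-- The old group inside the ambient group. -/
def L0 : G →* Amb G ι := (MonoidHom.inl _ _).comp lam

/-- The power of the old group inside the ambient group. -/
def D0 : (ι → G) →* Amb G ι := (MonoidHom.inl _ _).comp dia

/-- The new generators. -/
def b (a : Idx ι) : Amb G ι := (tau a.1 a.2, Pi.mulSingle a (-1))

theorem b_L0 (a : Idx ι) (x : G) :
    b a * L0 x * (b a)⁻¹ = D0 (fun i => if i = a.1 ∨ i ∈ a.2 then x else 1) := by
  rw [mul_inv_eq_iff_eq_mul]
  refine Prod.ext ?_ ?_
  · exact tau_lam a.1 a.2 x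
  · simp [b, L0, D0]

/-- The new generating set, inside the ambient group. -/
def gens (H : Set G) : Set (Amb G ι) := L0 '' H ∪ Set.range b

theorem L0_mem {H : Set G} (hH : Subgroup.closure H = ⊤) (x : G) :
    (L0 x : Amb G ι) ∈ Subgroup.closure (gens H : Set (Amb G ι)) := by
  have h1 : x ∈ Subgroup.closure H := by rw [hH]; trivial
  have h2 : (L0 x : Amb G ι) ∈ (Subgroup.closure H).map (L0 : G →* Amb G ι) :=
    Subgroup.mem_map_of_mem _ h1
  rw [MonoidHom.map_closure] at h2
  exact Subgroup.closure_mono Set.subset_union_left h2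

theorem b_mem {H : Set G} (a : Idx ι) :
    (b a : Amb G ι) ∈ Subgroup.closure (gens H : Set (Amb G ι)) :=
  Subgroup.subset_closure (Set.mem_union_right _ ⟨a, rfl⟩)

theorem D0_mem [Finite ι] {H : Set G} (hH : Subgroup.closure H = ⊤) (u : ι → G) :
    (D0 u : Amb G ι) ∈ Subgroup.closure (gens H : Set (Amb G ι)) := by
  have key : u ∈ (Subgroup.closure (gens H : Set (Amb G ι))).comap (D0 : (ι → G) →* Amb G ι) := by
    apply Subgroup.pi_mem_of_mulSingle_mem
    intro i
    rw [Subgroup.mem_comap]
    have h := b_L0 (G := G) ((i, ∅) : Idx ι) (u i)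
    have e : (fun k => if k = i ∨ k ∈ (∅ : Finset ι) then u i else 1)
        = (Pi.mulSingle i (u i) : ι → G) := by
      funext k
      by_cases hk : k = i
      · subst hk; simp
      · simp [hk]
    rw [e] at h
    rw [← h]
    exact Subgroup.mul_mem _ (Subgroup.mul_mem _ (b_mem _) (L0_mem hH _))
      (Subgroup.inv_mem _ (b_mem _))
  exact key

/-- The elements of the ambient group preserving the points with all coordinates in `K`. -/
def stab (K : Subgroup G) : Subgroup (Amb G ι) where
  carrier := {g | ∀ p : Pt G ι, (((g.1 p).1 ∈ K ∧ ∀ i, (g.1 p).2 i ∈ K) ↔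
    (p.1 ∈ K ∧ ∀ i, p.2 i ∈ K))}
  one_mem' := by intro p; rfl
  mul_mem' := by
    intro g g' hg hg' p
    have := hg (g'.1 p)
    have h2 := hg' p
    exact this.trans h2
  inv_mem' := by
    intro g hg p
    have h1 := hg (g.1⁻¹ p)
    have h2 : g.1 (g.1⁻¹ p) = p := g.1.apply_symm_apply p
    rw [h2] at h1
    exact h1.symm

theorem L0_mem_stab (K : Subgroup G) {x : G} (hx : x ∈ K) : (L0 x : Amb G ι) ∈ stab K := by
  intro p
  show ((x * p.1 ∈ K) ∧ ∀ i, p.2 i ∈ K) ↔ _
  rw [Subgroup.mul_mem_cancel_left K hx]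

theorem L0_notMem_stab (K : Subgroup G) {x : G} (hx : x ∉ K) : (L0 x : Amb G ι) ∉ stab K := by
  intro h
  have h1 := (h (1, fun _ => 1)).2 ⟨K.one_mem, fun _ => K.one_mem⟩
  have h2 : x * 1 ∈ K := h1.1
  rw [mul_one] at h2
  exact hx h2

theorem b_mem_stab (K : Subgroup G) (a : Idx ι) : (b a : Amb G ι) ∈ stab K := by
  intro p
  show ((p.2 a.1 ∈ K) ∧ ∀ i, (if i = a.1 then p.1 else if i ∈ a.2 then p.1 * p.2 i else p.2 i) ∈ K) ↔ _
  constructor
  · rintro ⟨h1, h2⟩
    have h0 : p.1 ∈ K := by simpa using h2 a.1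
    refine ⟨h0, fun i => ?_⟩
    by_cases hi : i = a.1
    · rw [hi]; exact h1
    · have := h2 i
      rw [if_neg hi] at this
      split_ifs at this with hA
      · exact (Subgroup.mul_mem_cancel_left K h0).1 this
      · exact this
  · rintro ⟨h1, h2⟩
    refine ⟨h2 _, fun i => ?_⟩
    split_ifs
    · exact h1
    · exact K.mul_mem h1 (h2 i)
    · exact h2 i

/-- The elements of the ambient group with trivial sign at `a`. -/
def sgn (a : Idx ι) : Subgroup (Amb G ι) where
  carrier := {g | g.2 a = 1}
  one_mem' := rfl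
  mul_mem' := by
    intro g g' hg hg'
    show g.2 a * g'.2 a = 1
    rw [show g.2 a = 1 from hg, show g'.2 a = 1 from hg', one_mul]
  inv_mem' := by
    intro g hg
    show (g.2 a)⁻¹ = 1
    rw [show g.2 a = 1 from hg, inv_one]

end Step

/-- Criterion for irreducibility of a generating set, inside its closure. -/
theorem irreducible_of {Γ : Type*} [Group Γ] (S : Set Γ)
    (h : ∀ s ∈ S, ∃ M : Subgroup Γ, s ∉ M ∧ ∀ t ∈ S, t ≠ s → t ∈ M) :
    IsIrreducibleGeneratingSet {x : Subgroup.closure S | (x : Γ) ∈ S} := by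
  refine ⟨Subgroup.closure_closure_coe_preimage, ?_⟩
  intro x hx htop
  obtain ⟨M, hM1, hM2⟩ := h x hx
  have hle : Subgroup.closure ({x : Subgroup.closure S | (x : Γ) ∈ S} \ {x}) ≤
      M.comap (Subgroup.closure S).subtype := by
    rw [Subgroup.closure_le]
    rintro y ⟨hy1, hy2⟩
    refine hM2 _ hy1 ?_
    intro hyx
    exact hy2 (Subtype.ext hyx)
  rw [htop] at hle
  exact hM1 (hle (Subgroup.mem_top x))

theorem step {G : Type} [Group G] [Finite G] (H : Set G) (hH : IsIrreducibleGeneratingSet H)
    (m : ℕ) (hm : ¬ (CayleyGraph H).Colorable m) :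
    ∃ (G' : Type) (_ : Group G') (_ : Finite G') (H' : Set G'),
      IsIrreducibleGeneratingSet H' ∧ ¬ (CayleyGraph H').Colorable (m + 1) := by
  classical
  obtain ⟨ι, hι, hJ⟩ := Combinatorics.Line.exists_mono_in_high_dimension G (Fin (m + 1))
  let S : Set (Amb G ι) := gens H
  let H' : Set (Subgroup.closure S) := {x | (x : Amb G ι) ∈ S}
  have hirr : IsIrreducibleGeneratingSet H' := by
    apply irreducible_of
    rintro s (⟨h, hh, rfl⟩ | ⟨a, rfl⟩)
    · refine ⟨stab (Subgroup.closure (H \ {h})), ?_, ?_⟩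
      · apply L0_notMem_stab
        intro hmem
        apply hH.2 h hh
        rw [eq_top_iff, ← hH.1, Subgroup.closure_le]
        intro y hy
        by_cases hyh : y = h
        · rw [hyh]; exact hmem
        · exact Subgroup.subset_closure ⟨hy, hyh⟩
      · rintro t (⟨h', hh', rfl⟩ | ⟨a, rfl⟩) hne
        · apply L0_mem_stab
          apply Subgroup.subset_closure
          refine ⟨hh', ?_⟩
          intro heq
          apply hne
          rw [show h' = h from heq]
        · exact b_mem_stab _ a
    · refine ⟨sgn a, ?_, ?_⟩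
      · intro hmem
        have : (Pi.mulSingle a (-1) : Idx ι → ℤˣ) a = 1 := hmem
        rw [Pi.mulSingle_eq_same] at this
        exact absurd this (by decide)
      · rintro t (⟨h', hh', rfl⟩ | ⟨a', rfl⟩) hne
        · show (1 : Idx ι → ℤˣ) a = 1
          rfl
        · have hne' : a ≠ a' := by
            rintro rfl
            exact hne rfl
          show (Pi.mulSingle a' (-1) : Idx ι → ℤˣ) a = 1
          exact Pi.mulSingle_eq_of_ne hne' _
  refine ⟨Subgroup.closure S, inferInstance, inferInstance, H', hirr, ?_⟩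
  rintro ⟨c⟩
  apply hm
  have h1 : (1 : Subgroup.closure S) ∉ H' := one_notMem_of_irreducible hirr
  -- the colouring of the cube and a monochromatic line
  obtain ⟨l, κ, hl⟩ := hJ (fun u => c ⟨D0 u, D0_mem hH.1 u⟩)
  obtain ⟨j, hj⟩ := l.proper
  let a : Idx ι := (j, Finset.univ.filter (fun i => l.idxFun i = none))
  let g : ι → G := fun i => (l.idxFun i).getD 1
  have hfac : ∀ x : G, (D0 (l x) : Amb G ι) = b a * (L0 x * ((b a)⁻¹ * D0 g)) := by
    intro x
    have e : (l x : ι → G) = (fun i => if i = a.1 ∨ i ∈ a.2 then x else 1) * g := by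
      funext i
      simp only [Pi.mul_apply, a, g, Finset.mem_filter, Finset.mem_univ, true_and]
      by_cases hi : l.idxFun i = none
      · rw [Combinatorics.Line.apply_none l x i hi]
        simp [hi]
      · have hij : i ≠ j := by
          rintro rfl
          exact hi hj
        obtain ⟨y, hy⟩ := Option.ne_none_iff_exists'.1 hi
        rw [Combinatorics.Line.apply_some hy]
        simp [hy, hij]
    rw [e, map_mul, ← b_L0]
    group
  have hwmem : ((b a)⁻¹ * D0 g : Amb G ι) ∈ Subgroup.closure S :=
    Subgroup.mul_mem _ (Subgroup.inv_mem _ (b_mem a)) (D0_mem hH.1 g)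
  let w : Subgroup.closure S := ⟨(b a)⁻¹ * D0 g, hwmem⟩
  let V : G → Subgroup.closure S := fun x => ⟨L0 x, L0_mem hH.1 x⟩ * w
  let B : Subgroup.closure S := ⟨b a, b_mem a⟩
  have hBH : B ∈ H' := Or.inr ⟨a, rfl⟩
  have adj : ∀ (h : Subgroup.closure S), h ∈ H' → ∀ v, (CayleyGraph H').Adj v (h * v) := by
    intro h hh v
    refine ⟨?_, h, hh, Or.inl rfl⟩
    intro heq
    have : h = 1 := by
      have := heq.symm
      rwa [mul_eq_right] at this
    exact h1 (this ▸ hh)
  have hcol : ∀ x : G, c (B * V x) = κ := by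
    intro x
    have : B * V x = ⟨D0 (l x), D0_mem hH.1 _⟩ := by
      apply Subtype.ext
      exact (hfac x).symm
    rw [this]
    exact hl x
  have hne : ∀ x : G, c (V x) ≠ κ := by
    intro x
    rw [← hcol x]
    exact c.valid (adj B hBH (V x))
  let c' : (CayleyGraph H).Coloring {k : Fin (m + 1) // k ≠ κ} :=
    SimpleGraph.Coloring.mk (fun x => ⟨c (V x), hne x⟩) (by
      intro x y hxy
      have key : ∀ x y : G, (∃ h ∈ H, y = h * x) → c (V x) ≠ c (V y) := by
        rintro x y ⟨h, hh, rfl⟩
        have e : V (h * x) = ⟨L0 h, L0_mem hH.1 h⟩ * V x := by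
          apply Subtype.ext
          show (L0 (h * x) : Amb G ι) * _ = L0 h * (L0 x * _)
          rw [map_mul, mul_assoc]
        rw [e]
        exact c.valid (adj _ (Or.inl ⟨h, hh, rfl⟩) (V x))
      intro heq
      have heq' : c (V x) = c (V y) := congrArg Subtype.val heq
      obtain ⟨-, h, hh, h2 | h2⟩ := hxy
      · exact key x y ⟨h, hh, h2⟩ heq'
      · exact key y x ⟨h, hh, h2⟩ heq'.symm)
  have := c'.colorable
  have hcard : Fintype.card {k : Fin (m + 1) // k ≠ κ} = m := by
    rw [Fintype.card_subtype_compl, Fintype.card_fin, Fintype.card_subtype_eq]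
    rfl
  rwa [hcard] at this

theorem main (m : ℕ) : ∃ (G : Type) (_ : Group G) (_ : Finite G) (H : Set G),
      IsIrreducibleGeneratingSet H ∧ ¬ (CayleyGraph H).Colorable m := by
  induction m with
  | zero =>
    refine ⟨Unit, inferInstance, inferInstance, ∅, ⟨?_, ?_⟩, ?_⟩
    · exact Subsingleton.elim _ _
    · intro h hh
      exact absurd hh (Set.notMem_empty h)
    · rintro ⟨c⟩
      exact (c ()).elim0
  | succ m ih =>
    obtain ⟨G, _, _, H, hH, hm⟩ := ih
    exact step H hH m hm

end Pool.Agent.Y799.IG
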